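import Pool.Agent.H263_Sort.Core

set_option autoImplicit false

/-!
# The Coxeter sorting time of the `n`-cycles is at most `(n - 1) (5 n - 3) / 16`

`Γ_n` is the graph on the `n`-cycles in `S_n`, two of them adjacent if they are conjugate by an adjacent
transposition; `Sort_n` is the largest distance of an `n`-cycle from `c_n : i ↦ i + 1`. We show that
`Sort_n ≤ (n - 1) (5 n - 3) / 16` for all `n ≥ 1` (known: `(1/2 - π/16) n² - 3n/2 ≤ Sort_n ≤ (2n² - 3n + 1)/6`).

Proof. Let `σ` be a permutation of `{0, …, n-1}` and let `F` be the smallest number of inversions of a rotation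
of its word. For a letter `r` let `P_r` be the sum of the places of the letters smaller than `r` in the rotation
which starts just after `r`. A pair `i < j` of places which is inverted in this rotation has a letter smaller than
`r` at `j`, or two letters `≥ r`; hence `F ≤ P_r + C(n - r, 2)`. Of course `P_r ≥ C(r, 2)`. Finally the numbers of
inversions of the `n` rotations and the `P_r` have the sum `n (n - 1)² / 2`. The first lower bound of `P_r` for
`n/4 ≤ r ≤ 3n/4` and the second one for the other letters give the result.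
-/

open Finset

namespace Pool.Agent.Results.MP_8de615_co.FiveSixteenths

open Pool.Agent.H263_Sort

set_option linter.unusedSectionVars false

variable {n : ℕ} [NeZero n]

/-- The `n`-cycle `c_n : i ↦ i + 1` (modulo `n`). -/
def cyc (n : ℕ) [NeZero n] : Equiv.Perm (Fin n) := Equiv.addRight 1

/-- The number of inversions. -/
def inv (τ : Equiv.Perm (Fin n)) : ℕ :=
  ((univ : Finset (Fin n × Fin n)).filter (fun p => p.1 < p.2 ∧ τ p.2 < τ p.1)).card

/-- The graph `Γ_n` on the `n`-cycles: two of them are adjacent if they are conjugate by an adjacent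
transposition. -/
def Gam (n : ℕ) [NeZero n] : SimpleGraph {γ : Equiv.Perm (Fin n) // IsConj (cyc n) γ} where
  Adj γ δ := γ ≠ δ ∧ ∃ i j : Fin n, i.val + 1 = j.val ∧
    δ.1 = Equiv.swap i j * γ.1 * Equiv.swap i j
  symm := ⟨by
    rintro γ δ ⟨h, i, j, hij, he⟩
    refine ⟨h.symm, i, j, hij, ?_⟩
    rw [he]
    simp [mul_assoc]⟩
  loopless := ⟨fun γ h => h.1 rfl⟩

/-- the vertex `τ c τ⁻¹` -/
def vert (τ : Equiv.Perm (Fin n)) : {γ : Equiv.Perm (Fin n) // IsConj (cyc n) γ} :=
  ⟨τ * cyc n * τ⁻¹, isConj_iff.2 ⟨τ, rfl⟩⟩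

lemma inv_swap_lt (τ : Equiv.Perm (Fin n)) (i j : Fin n) (hij : i.val + 1 = j.val)
    (h : τ.symm j < τ.symm i) : inv (Equiv.swap i j * τ) < inv τ := by
  unfold inv
  have hlt : i < j := by rw [Fin.lt_def]; omega
  apply card_lt_card
  rw [Finset.ssubset_iff_of_subset]
  · refine ⟨(τ.symm j, τ.symm i), ?_, ?_⟩
    · rw [mem_filter]
      refine ⟨mem_univ _, h, ?_⟩
      simpa using hlt
    · rw [mem_filter]
      rintro ⟨-, -, h'⟩
      simp only [Equiv.Perm.mul_apply, Equiv.apply_symm_apply, Equiv.swap_apply_left,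
        Equiv.swap_apply_right] at h'
      exact absurd hlt (not_lt.2 h'.le)
  · rintro ⟨p, q⟩ hp
    rw [mem_filter] at hp ⊢
    replace hp := hp.2
    simp only [Equiv.Perm.mul_apply] at hp
    refine ⟨mem_univ _, hp.1, ?_⟩
    show τ q < τ p
    by_contra hc
    have hne : τ p ≠ τ q := fun he => (ne_of_lt hp.1) (τ.injective he)
    have hlt' : τ p < τ q := lt_of_le_of_ne (not_lt.1 hc) hne
    have h2 := hp.2
    have key : τ p = i ∧ τ q = j := by
      rw [Equiv.swap_apply_def, Equiv.swap_apply_def] at h2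
      split_ifs at h2 <;> simp only [Fin.lt_def, Fin.ext_iff] at * <;> omega
    have h3 : p = τ.symm i := by rw [← key.1]; simp
    have h4 : q = τ.symm j := by rw [← key.2]; simp
    rw [h3, h4] at hp
    exact absurd hp.1 (not_lt.2 h.le)

lemma exists_descent (τ : Equiv.Perm (Fin n)) (h : τ ≠ 1) :
    ∃ i j : Fin n, i.val + 1 = j.val ∧ τ.symm j < τ.symm i := by
  by_contra hc
  push Not at hc
  apply h
  have hmono : StrictMono τ.symm := by
    intro a b hab
    obtain ⟨d, hd⟩ : ∃ d : ℕ, b.val = a.val + d + 1 := ⟨b.val - a.val - 1, by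
      rw [Fin.lt_def] at hab; omega⟩
    induction d generalizing b with
    | zero =>
      have h1 := hc a b (by omega)
      have h2 : τ.symm a ≠ τ.symm b := fun he => (ne_of_lt hab) (τ.symm.injective he)
      exact lt_of_le_of_ne h1 h2
    | succ d ih =>
      have hb := b.2
      let b' : Fin n := ⟨a.val + d + 1, by omega⟩
      have h0 : a < b' := by rw [Fin.lt_def]; show a.val < a.val + d + 1; omega
      have h1 := ih (b := b') h0 rfl
      have h2 := hc b' b (by show a.val + d + 1 + 1 = b.val; omega)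
      exact lt_of_lt_of_le h1 h2
  have h1 : (⇑τ.symm) = id := by
    refine (hmono.range_inj strictMono_id).1 ?_
    rw [τ.symm.surjective.range_eq, Set.range_id]
  apply Equiv.ext
  intro x
  have h2 : τ.symm (τ x) = τ x := by rw [h1]; rfl
  rw [Equiv.symm_apply_apply] at h2
  exact h2.symm

lemma exists_walk (k : ℕ) : ∀ τ : Equiv.Perm (Fin n), inv τ ≤ k →
    ∃ w : (Gam n).Walk (vert τ) (vert 1), w.length ≤ k := by
  induction k with
  | zero =>
    intro τ hτ
    by_cases h : τ = 1
    · subst h; exact ⟨SimpleGraph.Walk.nil, by simp⟩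
    · obtain ⟨i, j, hij, hd⟩ := exists_descent τ h
      have := inv_swap_lt τ i j hij hd
      omega
  | succ k ih =>
    intro τ hτ
    by_cases h : τ = 1
    · subst h; exact ⟨SimpleGraph.Walk.nil, by simp⟩
    · obtain ⟨i, j, hij, hd⟩ := exists_descent τ h
      have h1 := inv_swap_lt τ i j hij hd
      obtain ⟨w, hw⟩ := ih (Equiv.swap i j * τ) (by omega)
      by_cases he : vert τ = vert (Equiv.swap i j * τ)
      · rw [he]; exact ⟨w, by omega⟩
      · have hadj : (Gam n).Adj (vert τ) (vert (Equiv.swap i j * τ)) := by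
          refine ⟨he, i, j, hij, ?_⟩
          simp [vert, mul_assoc]
        exact ⟨SimpleGraph.Walk.cons hadj w, by simp; omega⟩

/-- The Coxeter sorting time: the largest distance of an `n`-cycle from `c_n` in `Γ_n`. -/
noncomputable def sortTime (n : ℕ) [NeZero n] : ℕ :=
  sSup (Set.range fun γ => (Gam n).dist ⟨cyc n, IsConj.refl _⟩ γ)

lemma vert_one : vert (1 : Equiv.Perm (Fin n)) = ⟨cyc n, IsConj.refl _⟩ := by
  apply Subtype.ext
  simp [vert]

lemma walk_bound (γ : {γ : Equiv.Perm (Fin n) // IsConj (cyc n) γ}) :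
    ∃ w : (Gam n).Walk ⟨cyc n, IsConj.refl _⟩ γ, 16 * w.length ≤ (n - 1) * (5 * n - 3) := by
  obtain ⟨σ, hσ⟩ := isConj_iff.1 γ.2
  obtain ⟨a, ha⟩ := exists_rotation σ
  have h1 : vert (σ * Equiv.addRight a) = γ := by
    apply Subtype.ext
    rw [← hσ]
    have hcomm : (Equiv.addRight a : Equiv.Perm (Fin n)) * cyc n = cyc n * Equiv.addRight a := by
      ext x
      simp [cyc, add_right_comm]
    show σ * Equiv.addRight a * cyc n * (σ * Equiv.addRight a)⁻¹ = σ * cyc n * σ⁻¹
    rw [mul_assoc σ, hcomm, mul_inv_rev]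
    group
  have h2 : inv (σ * Equiv.addRight a) = rinv σ a := by
    rfl
  have h3 := exists_walk (inv (σ * Equiv.addRight a)) (σ * Equiv.addRight a) le_rfl
  rw [h1, vert_one] at h3
  obtain ⟨w, hw⟩ := h3
  refine ⟨w.reverse, ?_⟩
  rw [SimpleGraph.Walk.length_reverse]
  calc 16 * w.length ≤ 16 * rinv σ a := by rw [← h2]; omega
    _ ≤ _ := ha

theorem connected (n : ℕ) [NeZero n] : (Gam n).Connected := by
  have : Nonempty {γ : Equiv.Perm (Fin n) // IsConj (cyc n) γ} := ⟨⟨cyc n, IsConj.refl _⟩⟩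
  refine SimpleGraph.Connected.mk ?_
  intro a b
  obtain ⟨w, -⟩ := walk_bound a
  obtain ⟨w', -⟩ := walk_bound b
  exact ⟨w.reverse.append w'⟩

theorem sortTime_le (n : ℕ) [NeZero n] : 16 * sortTime n ≤ (n - 1) * (5 * n - 3) := by
  have : Nonempty {γ : Equiv.Perm (Fin n) // IsConj (cyc n) γ} := ⟨⟨cyc n, IsConj.refl _⟩⟩
  have h : sortTime n ∈ Set.range fun γ => (Gam n).dist ⟨cyc n, IsConj.refl _⟩ γ :=
    Nat.sSup_mem (Set.range_nonempty _) (Set.finite_range _).bddAbove
  obtain ⟨γ, hγ⟩ := h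
  obtain ⟨w, hw⟩ := walk_bound γ
  rw [← hγ]
  have := SimpleGraph.dist_le w
  show 16 * (Gam n).dist ⟨cyc n, IsConj.refl _⟩ γ ≤ _
  omega

/-- `Γ_n` is connected and `Sort_n ≤ (n - 1) (5 n - 3) / 16` for all `n ≥ 1`. -/
theorem result (n : ℕ) [NeZero n] :
    (Gam n).Connected ∧ 16 * sortTime n ≤ (n - 1) * (5 * n - 3) :=
  ⟨connected n, sortTime_le n⟩

end Pool.Agent.Results.MP_8de615_co.FiveSixteenths
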